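import Pool.Agent.W785.FD.Stms

/-!
# Newtonian functions that vanish a.e. vanish on almost all curves
-/

set_option autoImplicit false

open MeasureTheory Metric Set Filter
open scoped ENNReal NNReal Topology

namespace Pool.Agent.W762.FD.QE

open Pool.Agent.W785.FD

variable {X : Type*} [MetricSpace X]

/-- The part of a curve over `[a, b]`. -/
def sub (c : Crv X) (a b : ℝ) (hab : a ≤ b) : Crv X where
  l := b - a
  nonneg := sub_nonneg.2 hab
  γ := fun t => c.γ (t + a)
  lip := by
    have h := c.lip.comp (LipschitzWith.of_edist_le (f := fun t : ℝ => t + a) (by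
      intro x y
      rw [edist_add_right]))
    show LipschitzWith 1 (c.γ ∘ fun t => t + a)
    simpa using h

theorem sub_int (c : Crv X) (a b : ℝ) (hab : a ≤ b) (g : X → ℝ≥0∞) :
    (sub c a b hab).int g = ∫⁻ t in Icc a b, g (c.γ t) := by
  unfold Crv.int
  rw [← lintegral_indicator measurableSet_Icc, ← lintegral_indicator measurableSet_Icc]
  rw [← lintegral_add_right_eq_self (fun t => (Icc a b).indicator (fun t => g (c.γ t)) t) a]
  apply lintegral_congr
  intro t
  show (Icc 0 (b - a)).indicator (fun t => g (c.γ (t + a))) t = _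
  by_cases h : t ∈ Icc 0 (b - a)
  · have h' : t + a ∈ Icc a b := ⟨by linarith [h.1], by linarith [h.2]⟩
    rw [indicator_of_mem h, indicator_of_mem h']
  · have h' : t + a ∉ Icc a b := fun h1 => h ⟨by linarith [h1.1], by linarith [h1.2]⟩
    rw [indicator_of_notMem h, indicator_of_notMem h']

theorem main [ProperSpace X] [MeasurableSpace X] [BorelSpace X] (μ : Measure X) (p : ℝ)
    (hp : 1 < p) : S_QE μ p := by
  intro u hu hu0 g hWU hg
  obtain ⟨hgm, h, hm, hh, hc⟩ := hWU
  have hN : MeasurableSet {x | u x ≠ 0} := (measurableSet_eq_fun hu measurable_const).compl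
  have hN0 : μ {x | u x ≠ 0} = 0 := hu0
  refine ⟨hN0, fun x => h x + g x + {x | u x ≠ 0}.indicator (fun _ => ∞) x, ?_, ?_, ?_⟩
  · exact (hm.add hgm).add (measurable_const.indicator hN)
  · have h1 : ∫⁻ x, (h x + g x + {x | u x ≠ 0}.indicator (fun _ => ∞) x) ^ p ∂μ =
        ∫⁻ x, (h x + g x) ^ p ∂μ := by
      apply lintegral_congr_ae
      filter_upwards [hu0] with x hx
      have : x ∉ {x | u x ≠ 0} := fun h2 => h2 hx
      rw [indicator_of_notMem this, add_zero]
    rw [h1]
    have h2 : ∫⁻ x, (h x + g x) ^ p ∂μ ≤ ∫⁻ x, 2 ^ (p - 1) * (h x ^ p + g x ^ p) ∂μ :=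
      lintegral_mono (fun x => ENNReal.rpow_add_le_mul_rpow_add_rpow _ _ hp.le)
    refine h2.trans_lt ?_
    have hmp : Measurable fun x => h x ^ p + g x ^ p :=
      (hm.pow_const p).add (hgm.pow_const p)
    rw [lintegral_const_mul _ hmp, lintegral_add_left (hm.pow_const p)]
    exact ENNReal.mul_lt_top (ENNReal.rpow_lt_top_of_nonneg (by linarith) (by norm_num))
      (ENNReal.add_lt_top.2 ⟨hh, hg⟩)
  · intro c hl
    by_contra hcon
    push Not at hcon
    obtain ⟨⟨t0, ht0, hu'⟩, hfin⟩ := hcon
    have hut0 : u (c.γ t0) ≠ 0 := hu'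
    have hγ : Measurable c.γ := c.lip.continuous.measurable
    -- the integrals are finite
    have e1 : c.int (fun x => h x + g x + {x | u x ≠ 0}.indicator (fun _ => ∞) x) =
        c.int h + c.int g + c.int ({x | u x ≠ 0}.indicator (fun _ => ∞)) := by
      unfold Crv.int
      have m1 : Measurable fun t => h (c.γ t) := hm.comp hγ
      have m2 : Measurable fun t => h (c.γ t) + g (c.γ t) := m1.add (hgm.comp hγ)
      rw [lintegral_add_left m2, lintegral_add_left m1]
    rw [e1] at hfin
    have f3 : c.int ({x | u x ≠ 0}.indicator (fun _ => ∞)) ≠ ∞ := fun h5 => hfin (by rw [h5, add_top])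
    have f1 : c.int h ≠ ∞ := fun h5 => hfin (by rw [h5, top_add, top_add])
    have f2 : c.int g ≠ ∞ := fun h5 => hfin (by rw [h5, add_top, top_add])
    -- the bad set of times is null
    have b0 : volume ({t | u (c.γ t) ≠ 0} ∩ Icc 0 c.l) = 0 := by
      by_contra hne
      apply f3
      unfold Crv.int
      have hms : MeasurableSet {t | u (c.γ t) ≠ 0} := hγ hN
      have e2 : (fun t => {x | u x ≠ 0}.indicator (fun _ => (∞ : ℝ≥0∞)) (c.γ t)) =
          {t | u (c.γ t) ≠ 0}.indicator (fun _ => ∞) := by
        funext t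
        by_cases ht : u (c.γ t) ≠ 0
        · rw [indicator_of_mem (show c.γ t ∈ {x | u x ≠ 0} from ht),
            indicator_of_mem (show t ∈ {t | u (c.γ t) ≠ 0} from ht)]
        · rw [indicator_of_notMem (show c.γ t ∉ {x | u x ≠ 0} from ht),
            indicator_of_notMem (show t ∉ {t | u (c.γ t) ≠ 0} from ht)]
      rw [e2, lintegral_indicator hms, lintegral_const, Measure.restrict_restrict hms,
        Measure.restrict_apply_univ]
      exact ENNReal.top_mul hne
    -- inequality on the parts of the curve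
    have key : ∀ a b : ℝ, ∀ hab : a ≤ b, 0 ≤ a → b ≤ c.l →
        ENNReal.ofReal |u (c.γ a) - u (c.γ b)| ≤ ∫⁻ t in Icc a b, g (c.γ t) := by
      intro a b hab ha hb
      rcases hc (sub c a b hab) with h5 | h5
      · unfold CrvIneq at h5
        rw [sub_int] at h5
        have e3 : (sub c a b hab).γ 0 = c.γ a := by
          show c.γ (0 + a) = _
          rw [zero_add]
        have e4 : (sub c a b hab).γ (sub c a b hab).l = c.γ b := by
          show c.γ (b - a + a) = _
          rw [sub_add_cancel]
        rwa [e3, e4] at h5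
      · exfalso
        rw [sub_int] at h5
        apply f1
        apply top_unique
        rw [← h5]
        exact lintegral_mono_set (Icc_subset_Icc ha hb)
    -- absolute continuity
    obtain ⟨δ, hδ, hδ'⟩ := exists_pos_setLIntegral_lt_of_measure_lt
      (μ := volume.restrict (Icc 0 c.l)) (f := fun t => g (c.γ t)) f2
      (ε := ENNReal.ofReal |u (c.γ t0)|) (by
        rw [ne_eq, ENNReal.ofReal_eq_zero, not_le]
        exact abs_pos.2 hut0)
    obtain ⟨η, hη, hηδ⟩ : ∃ η : ℝ, 0 < η ∧ ENNReal.ofReal η < δ := by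
      by_cases htop : δ = ∞
      · exact ⟨1, one_pos, by rw [htop]; exact ENNReal.ofReal_lt_top⟩
      · refine ⟨δ.toReal / 2, ?_, ?_⟩
        · have := ENNReal.toReal_pos hδ.ne' htop
          linarith
        · rw [ENNReal.ofReal_lt_iff_lt_toReal _ htop]
          · have := ENNReal.toReal_pos hδ.ne' htop
            linarith
          · have := ENNReal.toReal_nonneg (a := δ)
            linarith
    have small : ∀ a b : ℝ, 0 ≤ a → b ≤ c.l → b - a ≤ η →
        ∫⁻ t in Icc a b, g (c.γ t) < ENNReal.ofReal |u (c.γ t0)| := by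
      intro a b ha hb hab
      have h6 := hδ' (Icc a b) (by
        rw [Measure.restrict_apply measurableSet_Icc]
        refine (measure_mono inter_subset_left).trans_lt ?_
        rw [Real.volume_Icc]
        exact (ENNReal.ofReal_le_ofReal hab).trans_lt hηδ)
      rwa [Measure.restrict_restrict measurableSet_Icc,
        inter_eq_left.2 (Icc_subset_Icc ha hb)] at h6
    have pick : ∀ a b : ℝ, a < b → 0 ≤ a → b ≤ c.l → ∃ t, a < t ∧ t < b ∧ u (c.γ t) = 0 := by
      intro a b hab ha hb
      by_contra hno
      push Not at hno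
      have h7 : Ioo a b ⊆ {t | u (c.γ t) ≠ 0} ∩ Icc 0 c.l := by
        intro t ht
        exact ⟨hno t ht.1 ht.2, ⟨by linarith [ht.1], by linarith [ht.2]⟩⟩
      have h8 := measure_mono (μ := volume) h7
      rw [b0, Real.volume_Ioo] at h8
      have h9 : ENNReal.ofReal (b - a) = 0 := le_antisymm h8 bot_le
      rw [ENNReal.ofReal_eq_zero] at h9
      linarith
    rcases lt_or_eq_of_le ht0.2 with hlt | heq
    · obtain ⟨t, ht1, ht2, ht3⟩ := pick t0 (min c.l (t0 + η)) (lt_min hlt (by linarith)) ht0.1
        (min_le_left _ _)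
      have htl : t ≤ c.l := (ht2.trans_le (min_le_left _ _)).le
      have htη : t ≤ t0 + η := (ht2.trans_le (min_le_right _ _)).le
      have k1 := key t0 t ht1.le ht0.1 htl
      have k2 := small t0 t ht0.1 htl (by linarith)
      rw [ht3, sub_zero] at k1
      exact absurd (k1.trans_lt k2) (lt_irrefl _)
    · obtain ⟨t, ht1, ht2, ht3⟩ := pick (max 0 (t0 - η)) t0
        (max_lt (by rw [heq]; exact hl) (by linarith)) (le_max_left _ _) ht0.2
      have ht' : 0 ≤ t := (le_max_left _ _).trans ht1.le
      have htη : t0 - η ≤ t := (le_max_right _ _).trans ht1.le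
      have k1 := key t t0 ht2.le ht' ht0.2
      have k2 := small t t0 ht' ht0.2 (by linarith)
      rw [ht3, zero_sub, abs_neg] at k1
      exact absurd (k1.trans_lt k2) (lt_irrefl _)

end Pool.Agent.W762.FD.QE
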